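import Pool.Agent.SCT.StmtsC
import Pool.Agent.Helper64_CUB.Odd
import Pool.Agent.Helper64_CUB.Str

/-!
# Squad SCT, row ODS: a cubic with an odd section of the quadric bundle has secants
-/

set_option autoImplicit false
set_option linter.unusedSectionVars false

namespace Pool.Agent.SCT.H57

open MvPolynomial

/-- the transcendence degree of a field with few generators -/
theorem trdeg_adjoin_le {k Ω : Type} [Field k] [Field Ω] [Algebra k Ω] (S : Set Ω) (d : ℕ)
    (hS : Cardinal.mk S ≤ (d : Cardinal)) :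
    Algebra.trdeg k (IntermediateField.adjoin k S) ≤ (d : Cardinal) := by
  set s : Set (IntermediateField.adjoin k S) := (fun x => (x : Ω)) ⁻¹' S with hs
  have h1 : IntermediateField.adjoin k s = ⊤ := by
    apply IntermediateField.map_injective (IntermediateField.adjoin k S).val
    rw [IntermediateField.adjoin_map, ← AlgHom.fieldRange_eq_map,
      IntermediateField.fieldRange_val]
    congr 1
    ext z
    constructor
    · rintro ⟨x, hx, rfl⟩
      exact hx
    · intro hz
      exact ⟨⟨z, IntermediateField.subset_adjoin _ _ hz⟩, hz, rfl⟩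
  have h2 : Algebra.IsAlgebraic (Algebra.adjoin k s) (IntermediateField.adjoin k S) := by
    rw [← IntermediateField.isAlgebraic_adjoin_iff_top, h1, Algebra.isAlgebraic_iff_isIntegral]
    exact Algebra.isIntegral_of_surjective IntermediateField.topEquiv.surjective
  have h3 : Algebra.trdeg k (IntermediateField.adjoin k S) ≤ Cardinal.mk s :=
    Algebra.IsAlgebraic.trdeg_le_cardinalMk k s
  refine h3.trans (le_trans ?_ hS)
  refine Cardinal.mk_le_of_injective (f := fun x : s => (⟨(x.1 : Ω), x.2⟩ : S)) ?_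
  intro x y h
  have h4 : ((x.1 : IntermediateField.adjoin k S) : Ω) = y.1 := congrArg (fun z : S => (z : Ω)) h
  exact Subtype.ext (Subtype.ext h4)

theorem trdeg_mono {k Ω : Type} [Field k] [Field Ω] [Algebra k Ω] {C D : IntermediateField k Ω}
    (h : C ≤ D) {d : ℕ} (hd : Algebra.trdeg k D ≤ (d : Cardinal)) :
    Algebra.trdeg k C ≤ (d : Cardinal) :=
  (trdeg_le_of_injective (IntermediateField.inclusion h)
    (IntermediateField.inclusion_injective h)).trans hd

theorem rat_le {k Ω ι : Type} [Field k] [Field Ω] [Algebra k Ω] {C : IntermediateField k Ω}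
    {y : ι → Ω} {s : Ω} (hs : s ≠ 0) (h : ∀ i, y i / s ∈ C) : rat k y ≤ C := by
  unfold rat
  rw [IntermediateField.adjoin_le_iff]
  rintro _ ⟨i, j, rfl⟩
  have h1 : y i / y j = (y i / s) / (y j / s) := (div_div_div_cancel_right₀ hs _ _).symm
  rw [h1]
  exact div_mem (h i) (h j)

open Pool.Agent.CUB.H64 (RA mv mv_apply mv_mv mv_one mv_hom mv_add_mul lin aeval_lin eval_lin
  lin_hom lin_smooth SectW Smooth sect_core strong_pt smooth_point qd qd_hom mul_qd ev ev_aeval xx bb
  bb_last subst_ne zero_L)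

/-- a section outside of the linear subspace, and the dimensions of the two points -/
theorem strongD {𝕜 : Type} [Field 𝕜] [Infinite 𝕜] {n : ℕ} {f : MvPolynomial (Fin (n + 2)) 𝕜}
    (h3 : f.IsHomogeneous 3) (hf : Smooth f) (h : SectW n f) :
    ∃ (l m : ℕ) (p q : Fin (n + 2) → FT 𝕜 n) (τ : FT 𝕜 n), l + m = n ∧ τ ≠ 0 ∧
      (∀ i, q i = p i + τ * gen 𝕜 n i) ∧ aeval p f = 0 ∧ aeval q f = 0 ∧
      DimLe 𝕜 p l ∧ DimLe 𝕜 q m := by
  classical
  obtain ⟨L, l, m, M, N, v, t, hL0, hL, hlm, hMN, hNM, hML, hne, hq⟩ := sect_core hf h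
  have hL' : ∀ a : Fin (l + 1) → 𝕜, eval (Sum.elim a 0) (lin M f) = 0 := by
    intro a
    rw [eval_lin]
    exact hL _ (hML a)
  obtain ⟨x, hx0, hx⟩ := strong_pt (qd (lin M f)) (qd_hom (lin_hom M h3) hL') _ hq
    (smooth_point (lin_smooth hMN hNM hf) hL' v t hne hq) (Fin.last (l + 1))
  set v' : Fin (l + 1) → RA 𝕜 m := Fin.init x with hv'
  set t' : RA 𝕜 m := x (Fin.last (l + 1)) with ht'
  have hx' : ev v' t' (qd (lin M f)) = 0 := by
    unfold ev
    rw [hv', ht', Fin.snoc_init_self]
    exact hx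
  have hxx : aeval (xx v' t') (lin M f) = 0 := by
    rw [← ev_aeval, ← mul_qd hL', map_mul, hx', mul_zero]
  -- the coordinates of the point `T`
  set α := algebraMap (MvPolynomial (Fin (n + 2)) 𝕜) (FT 𝕜 n) with hα
  have hinj : Function.Injective α := IsFractionRing.injective _ _
  set T' : Fin (l + 1) ⊕ Fin (m + 1) → MvPolynomial (Fin (n + 2)) 𝕜 := mv N X with hT'
  have hNMx : ∀ x : Fin (l + 1) ⊕ Fin (m + 1) → 𝕜, mv N (mv M x) = x := by
    intro x
    rw [mv_mv, hNM, mv_one]
  have hevN : ∀ (T : Fin (n + 2) → 𝕜) (i : Fin (l + 1) ⊕ Fin (m + 1)),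
      eval T (T' i) = mv N T i := by
    intro T i
    rw [hT', mv_apply, map_sum, mv_apply]
    apply Finset.sum_congr rfl
    intro j _
    have : algebraMap 𝕜 (MvPolynomial (Fin (n + 2)) 𝕜) (N i j) = C (N i j) := rfl
    rw [this, map_mul, eval_C, eval_X]
    rfl
  obtain ⟨y, hy⟩ : ∃ y : Fin m → 𝕜, eval y t' ≠ 0 := by
    by_contra hcon
    push Not at hcon
    exact hx0 (MvPolynomial.funext (fun y => by rw [hcon y, map_zero]))
  set S : Fin (n + 2) → 𝕜 := mv M (Sum.elim 0 (Fin.snoc y 1 : Fin (m + 1) → 𝕜)) with hS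
  have hST : ∀ j, eval S (T' (Sum.inr j)) = (Fin.snoc y 1 : Fin (m + 1) → 𝕜) j := by
    intro j
    rw [hevN, hS, hNMx, Sum.elim_inr]
  have hS1 : eval S (T' (Sum.inr (Fin.last m))) = 1 := by
    rw [hST, Fin.snoc_last]
  have hT0 : α (T' (Sum.inr (Fin.last m))) ≠ 0 := by
    intro h0
    have h1 : T' (Sum.inr (Fin.last m)) = 0 := hinj (h0.trans (map_zero _).symm)
    rw [h1, map_zero] at hS1
    exact zero_ne_one hS1
  set κ : RA 𝕜 m →ₐ[𝕜] FT 𝕜 n :=
    aeval (fun j => α (T' (Sum.inr j.castSucc)) / α (T' (Sum.inr (Fin.last m)))) with hκ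
  have hκX : ∀ j, κ (X j) = α (T' (Sum.inr j.castSucc)) / α (T' (Sum.inr (Fin.last m))) := by
    intro j
    rw [hκ, aeval_X]
  have hκt : κ t' ≠ 0 := by
    apply subst_ne (T' (Sum.inr (Fin.last m))) (fun j => T' (Sum.inr j.castSucc)) κ ?_ S hS1
    · have h1 : (fun j : Fin m => eval S (T' (Sum.inr j.castSucc))) = y := by
        funext j
        rw [hST]
        exact Fin.snoc_castSucc (α := fun _ => 𝕜) (x := 1) (p := y) (i := j)
      rw [h1]
      exact hy
    · intro j
      rw [hκX]
      exact div_mul_cancel₀ _ hT0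
  have hκb : ∀ j, κ (bb m j) = α (T' (Sum.inr j)) / α (T' (Sum.inr (Fin.last m))) := by
    intro j
    refine Fin.lastCases ?_ (fun j => ?_) j
    · rw [bb_last, map_one, div_self hT0]
    · rw [show bb (𝕜 := 𝕜) m j.castSucc = X j from
        Fin.snoc_castSucc (α := fun _ => RA 𝕜 m) (x := 1) (p := fun j => X j) (i := j), hκX]
  set τ : FT 𝕜 n := κ t' / α (T' (Sum.inr (Fin.last m))) with hτ
  set z : Fin (l + 1) → FT 𝕜 n := fun i => κ (v' i) - τ * α (T' (Sum.inl i)) with hz
  refine ⟨l, m, mv M (Sum.elim z 0), mv M (fun i => κ (xx v' t' i)), τ, hlm,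
    div_ne_zero hκt hT0, ?_, ?_, ?_, ?_, ?_⟩
  · have h1 : (fun i => mv M (Sum.elim z 0) i + τ * α (X i)) =
        mv M (fun i => κ (xx v' t' i)) := by
      have h2 : (fun i => α (X i)) = mv M (fun i => α (T' i)) := by
        funext i
        have h4 : mv M T' = X := by
          rw [hT', mv_mv, hMN, mv_one]
        have h5 : α (X i) = α (mv M T' i) := by rw [h4]
        rw [h5]
        exact mv_hom (IsScalarTower.toAlgHom 𝕜 (MvPolynomial (Fin (n + 2)) 𝕜) (FT 𝕜 n)) M T' i
      funext i
      have h6 : α (X i) = mv M (fun i => α (T' i)) i := congrFun h2 i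
      rw [h6, ← mv_add_mul]
      congr 1
      funext j
      rcases j with j | j
      · simp only [Sum.elim_inl, hz, xx]
        ring
      · simp only [Sum.elim_inr, Pi.zero_apply, xx, map_mul, hκb, hτ, zero_add]
        ring
    intro i
    rw [← h1]
    rfl
  · rw [← aeval_lin]
    exact zero_L hL' z
  · rw [← aeval_lin]
    have h7 := comp_aeval_apply (R := 𝕜) (f := xx v' t') (φ := κ) (lin M f)
    rw [hxx, map_zero] at h7
    exact h7.symm
  · by_cases hz0 : z = 0
    · unfold DimLe
      refine trdeg_mono (D := IntermediateField.adjoin 𝕜 (∅ : Set (FT 𝕜 n))) ?_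
        (trdeg_adjoin_le _ _ (by simp))
      apply rat_le one_ne_zero
      intro i
      have : mv M (Sum.elim z 0) i = 0 := by
        rw [mv_apply, Fintype.sum_sum_type, hz0]
        simp
      rw [this, zero_div]
      exact zero_mem _
    · obtain ⟨j0, hj0⟩ := Function.ne_iff.1 hz0
      rw [Pi.zero_apply] at hj0
      unfold DimLe
      refine trdeg_mono (D := IntermediateField.adjoin 𝕜
        (Set.range (fun i : {i : Fin (l + 1) // i ≠ j0} => z i / z j0))) ?_
        (trdeg_adjoin_le _ _ ?_)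
      · apply rat_le hj0
        intro i
        rw [mv_apply, Fintype.sum_sum_type, add_div, Finset.sum_div, Finset.sum_div]
        apply add_mem
        · apply sum_mem
          intro j _
          rw [Sum.elim_inl, mul_div_assoc]
          refine mul_mem (IntermediateField.algebraMap_mem _ _) ?_
          by_cases hj : j = j0
          · rw [hj, div_self hj0]
            exact one_mem _
          · exact IntermediateField.subset_adjoin _ _ ⟨⟨j, hj⟩, rfl⟩
        · apply sum_mem
          intro j _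
          rw [Sum.elim_inr, Pi.zero_apply, mul_zero, zero_div]
          exact zero_mem _
      · refine Cardinal.mk_range_le.trans ?_
        rw [Cardinal.mk_fintype]
        simp
  · unfold DimLe
    refine trdeg_mono (D := IntermediateField.adjoin 𝕜 (Set.range (fun j : Fin m => κ (X j)))) ?_
      (trdeg_adjoin_le _ _ ?_)
    · apply rat_le one_ne_zero
      intro i
      rw [div_one, mv_apply]
      apply sum_mem
      intro j _
      refine mul_mem (IntermediateField.algebraMap_mem _ _) ?_
      have h8 : ∀ g : RA 𝕜 m, κ g ∈ IntermediateField.adjoin 𝕜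
          (Set.range (fun j : Fin m => κ (X j))) := by
        intro g
        induction g using MvPolynomial.induction_on with
        | C c =>
          have h9 : κ (C c) = algebraMap 𝕜 (FT 𝕜 n) c := κ.commutes c
          rw [h9]
          exact IntermediateField.algebraMap_mem _ _
        | add a b ha hb =>
          rw [map_add]
          exact add_mem ha hb
        | mul_X a j ha =>
          rw [map_mul]
          exact mul_mem ha (IntermediateField.subset_adjoin _ _ ⟨j, rfl⟩)
      exact h8 _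
    · refine Cardinal.mk_range_le.trans ?_
      simp

/-- **Row ODS.** -/
def OdsStmt : Prop :=
  ∀ (E : Type) [Field E] [IsAlgClosed E] (n : ℕ) (f : MvPolynomial (Fin (n + 2)) E),
    f.IsHomogeneous 3 → Nonsing E n f → SectW n f →
    ∃ (a b : ℕ) (x : Fin (n + 2) → FT E n) (u v : Cl E n), a + b = n ∧ Sec E n a b f x u v ∧ u ≠ v

theorem ods0 (ani : AniStmt) (exp : ExpStmt) : OdsStmt := by
  intro E _ _ n f h3 hf hs
  obtain ⟨l, m, p, q, τ, hlm, hτ, hq, hpf, hqf, hpl, hqm⟩ := strongD h3 hf hs
  have hT0 : aeval (gen E n) f ≠ 0 := aeval_gen_ne hf.ne_zero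
  have hE := exp E (FT E n) (Fin (n + 2)) f h3
  have hp0 : p ≠ 0 := by
    intro h
    have h1 : q = fun i => τ * gen E n i := by
      funext i
      rw [hq, h, Pi.zero_apply, zero_add]
    rw [h1, (hE (gen E n) 0 τ).2.2.2.1] at hqf
    exact mul_ne_zero (pow_ne_zero _ hτ) hT0 hqf
  have hq0 : q ≠ 0 := by
    intro h
    have h1 : p = fun i => (-τ) * gen E n i := by
      funext i
      have h2 := hq i
      rw [h, Pi.zero_apply] at h2
      linear_combination -h2
    rw [h1, (hE (gen E n) 0 (-τ)).2.2.2.1] at hpf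
    exact mul_ne_zero (pow_ne_zero _ (neg_ne_zero.2 hτ)) hT0 hpf
  have hA0 : dd f p q ≠ 0 := by
    have h1 : dd f p q = dd f p (fun i => p i + (fun i => τ * gen E n i) i) := by
      congr 1
      funext i
      exact hq i
    rw [h1, dd_add, (hE p 0 0).2.2.1, hpf, mul_zero, zero_add, dd_smul]
    exact mul_ne_zero hτ (ani E n f h3 hf p hp0 hpf)
  have hB0 : dd f q p ≠ 0 := by
    have h1 : dd f q p = dd f q (fun i => q i + (fun i => (-τ) * gen E n i) i) := by
      congr 1
      funext i
      rw [hq]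
      ring
    rw [h1, dd_add, (hE q 0 0).2.2.1, hqf, mul_zero, zero_add, dd_smul]
    exact mul_ne_zero (neg_ne_zero.2 hτ) (ani E n f h3 hf q hq0 hqf)
  set A := dd f p q with hA
  set B := dd f q p with hB
  set x : Fin (n + 2) → FT E n := fun i => B * p i + (-A) * q i with hx
  have hxf : aeval x f = 0 := by
    rw [hx, (hE (fun i => B * p i) q (-A)).1, (hE p 0 B).2.2.2.1, (hE p q B).2.2.2.2, dd_smul,
      hpf, hqf, ← hA, ← hB]
    ring
  have hAB : B ≠ A := by
    intro h
    have h1 : x = fun i => (-A * τ) * gen E n i := by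
      funext i
      rw [hx]
      simp only
      rw [hq, h]
      ring
    rw [h1, (hE (gen E n) 0 _).2.2.2.1] at hxf
    exact mul_ne_zero (pow_ne_zero _ (mul_ne_zero (neg_ne_zero.2 hA0) hτ)) hT0 hxf
  have hgen : ∀ i, gen E n i = (q i - p i) / τ := by
    intro i
    rw [hq]
    field_simp
    ring
  have e1 : ∀ i, gen E n i + 1 / (τ * A) * x i = (B - A) / (τ * A) * p i := by
    intro i
    rw [hgen, hx]
    field_simp
    ring
  have e2 : ∀ i, gen E n i + 1 / (τ * B) * x i = (B - A) / (τ * B) * q i := by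
    intro i
    rw [hgen, hx]
    field_simp
    ring
  have f1 : aeval (gen E n) f + 1 / (τ * A) * dd f (gen E n) x +
      (1 / (τ * A)) ^ 2 * dd f x (gen E n) = 0 := by
    have h1 := (hE (gen E n) x (1 / (τ * A))).1
    rw [hxf, mul_zero, add_zero] at h1
    rw [← h1, show (fun i => gen E n i + 1 / (τ * A) * x i) = fun i => (B - A) / (τ * A) * p i from
      funext e1, (hE p 0 _).2.2.2.1, hpf, mul_zero]
  have f2 : aeval (gen E n) f + 1 / (τ * B) * dd f (gen E n) x +
      (1 / (τ * B)) ^ 2 * dd f x (gen E n) = 0 := by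
    have h1 := (hE (gen E n) x (1 / (τ * B))).1
    rw [hxf, mul_zero, add_zero] at h1
    rw [← h1, show (fun i => gen E n i + 1 / (τ * B) * x i) = fun i => (B - A) / (τ * B) * q i from
      funext e2, (hE q 0 _).2.2.2.1, hqf, mul_zero]
  have hne : (1 / (τ * A) - 1 / (τ * B) : FT E n) ≠ 0 := by
    intro h
    apply hAB
    field_simp at h
    linear_combination h
  have g1 : dd f (gen E n) x = -dd f x (gen E n) * (1 / (τ * A) + 1 / (τ * B)) := by
    apply mul_left_cancel₀ hne
    linear_combination f1 - f2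
  have g2 : aeval (gen E n) f = dd f x (gen E n) * (1 / (τ * A) * (1 / (τ * B))) := by
    linear_combination f1 - (1 / (τ * A)) * g1
  set φ := algebraMap (FT E n) (Cl E n) with hφ
  have hc1 : (B - A) / (τ * A) ≠ 0 := div_ne_zero (sub_ne_zero.2 hAB) (mul_ne_zero hτ hA0)
  have hc2 : (B - A) / (τ * B) ≠ 0 := div_ne_zero (sub_ne_zero.2 hAB) (mul_ne_zero hτ hB0)
  refine ⟨l, m, x, φ (1 / (τ * A)), φ (1 / (τ * B)), hlm, ⟨?_, hxf, ?_, ?_, ?_, ?_⟩, ?_⟩
  · intro h
    have h1 := e1
    rw [h] at h1
    have h2 : gen E n = fun i => (B - A) / (τ * A) * p i := by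
      funext i
      have h4 := h1 i
      rw [Pi.zero_apply, mul_zero, add_zero] at h4
      exact h4
    apply hT0
    rw [h2, (hE p 0 _).2.2.2.1, hpf, mul_zero]
  · rw [g1, map_mul, map_neg, map_add]
  · rw [g2, map_mul, map_mul]
  · have h1 : pt E n x (φ (1 / (τ * A))) =
        fun i => (IsScalarTower.toAlgHom E (FT E n) (Cl E n)) ((B - A) / (τ * A) * p i) := by
      funext i
      rw [← e1]
      simp only [pt, IsScalarTower.coe_toAlgHom', map_add, map_mul, hφ]
    rw [h1, dimLe_map]
    unfold DimLe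
    rw [rat_smul hc1]
    exact hpl
  · have h1 : pt E n x (φ (1 / (τ * B))) =
        fun i => (IsScalarTower.toAlgHom E (FT E n) (Cl E n)) ((B - A) / (τ * B) * q i) := by
      funext i
      rw [← e2]
      simp only [pt, IsScalarTower.coe_toAlgHom', map_add, map_mul, hφ]
    rw [h1, dimLe_map]
    unfold DimLe
    rw [rat_smul hc2]
    exact hqm
  · intro h
    apply hne
    rw [sub_eq_zero]
    exact φ.injective h

/-- the hypersurface `f = 0` contains a linear subspace `P(L)` such that, over an extension `F` of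
odd degree of the field `E(T)`, the linear span of `P(L)` and of the generic point `T` contains a
point `a + t T`, `a` in `F ⊗ L`, `t ≠ 0`, of the hypersurface outside of `P(L)`: the bundle of the
residual quadrics in the linear spaces which contain `P(L)` as a hyperplane has a multisection of
odd degree -/
def HasOddSection (E : Type) [Field E] (n : ℕ) (f : MvPolynomial (Fin (n + 2)) E) : Prop :=
  ∃ L : Submodule E (Fin (n + 2) → E), L ≠ ⊥ ∧ (∀ x ∈ L, eval x f = 0) ∧
    ∃ (F : Type) (_ : Field F) (_ : Algebra (FT E n) F), Odd (Module.finrank (FT E n) F) ∧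
      ∃ (a : Fin (n + 2) → F) (t : F), t ≠ 0 ∧
        a ∈ Submodule.span F
          {z | ∃ x ∈ L, z = fun i => algebraMap (FT E n) F (algebraMap E (FT E n) (x i))} ∧
        eval₂ ((algebraMap (FT E n) F).comp (algebraMap E (FT E n)))
          (fun i => a i + t * algebraMap (FT E n) F
            (algebraMap (MvPolynomial (Fin (n + 2)) E) (FT E n) (X i))) f = 0

variable {E : Type} [Field E] {n : ℕ}

/-- a form which vanishes on `L` vanishes on the vectors of `F ⊗ L` -/
theorem vanish_span [Infinite E] {f : MvPolynomial (Fin (n + 2)) E}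
    {L : Submodule E (Fin (n + 2) → E)} (hL : ∀ x ∈ L, eval x f = 0) {F : Type} [Field F]
    (ψ : E →+* F) {a : Fin (n + 2) → F}
    (ha : a ∈ Submodule.span F {z | ∃ x ∈ L, z = fun i => ψ (x i)}) : eval₂ ψ a f = 0 := by
  obtain ⟨r, hr⟩ : ∃ r, r = Module.finrank E L := ⟨_, rfl⟩
  set b : Module.Basis (Fin r) E L := Module.finBasisOfFinrankEq E L hr.symm with hb
  obtain ⟨γ, hγ⟩ : ∃ γ : Fin r → F, a = fun i => ∑ j, γ j *
      (ψ ((b j : Fin (n + 2) → E) i)) := by
    induction ha using Submodule.span_induction with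
    | mem z hz =>
      obtain ⟨x, hx, rfl⟩ := hz
      refine ⟨fun j => ψ (b.repr ⟨x, hx⟩ j), ?_⟩
      funext i
      have h1 := b.sum_repr ⟨x, hx⟩
      have h2 : x i = ∑ j, b.repr ⟨x, hx⟩ j * (b j : Fin (n + 2) → E) i := by
        have h3 := congrArg (fun y : L => (y : Fin (n + 2) → E) i) h1
        dsimp only at h3
        rw [← h3, Submodule.coe_sum, Finset.sum_apply]
        rfl
      conv_lhs => rw [h2]
      rw [map_sum]
      apply Finset.sum_congr rfl
      intro j _
      rw [map_mul]
    | zero => exact ⟨0, by funext i; simp⟩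
    | add x y _ _ hx hy =>
      obtain ⟨γ, hγ⟩ := hx
      obtain ⟨γ', hγ'⟩ := hy
      refine ⟨γ + γ', ?_⟩
      rw [hγ, hγ']
      funext i
      simp only [Pi.add_apply, add_mul, Finset.sum_add_distrib]
    | smul c x _ hx =>
      obtain ⟨γ, hγ⟩ := hx
      refine ⟨c • γ, ?_⟩
      rw [hγ]
      funext i
      simp only [Pi.smul_apply, smul_eq_mul, Finset.mul_sum, mul_assoc]
  have h0 : eval₂ (C : E →+* MvPolynomial (Fin r) E)
      (fun i => ∑ j, X j * C ((b j : Fin (n + 2) → E) i)) f = 0 := by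
    apply MvPolynomial.funext
    intro y
    rw [map_zero, hom_eval₂]
    have h4 : (eval y).comp (C : E →+* MvPolynomial (Fin r) E) = RingHom.id E := by
      ext c; simp
    rw [h4, eval₂_id]
    have h5 : (fun i => eval y (∑ j, X j * C ((b j : Fin (n + 2) → E) i))) =
        ∑ j, y j • (b j : Fin (n + 2) → E) := by
      funext i
      rw [map_sum, Finset.sum_apply]
      simp only [map_mul, eval_X, eval_C]
      rfl
    rw [h5]
    exact hL _ (L.sum_mem (fun j _ => L.smul_mem _ (b j).2))
  have h1 := congrArg (eval₂Hom ψ γ) h0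
  rw [map_zero, hom_eval₂] at h1
  have h4 : (eval₂Hom ψ γ).comp (C : E →+* MvPolynomial (Fin r) E) = ψ := by
    ext c; simp
  rw [h4] at h1
  rw [hγ, ← h1]
  congr 1
  funext i
  rw [map_sum]
  apply Finset.sum_congr rfl
  intro j _
  rw [map_mul, coe_eval₂Hom, eval₂_X, eval₂_C]

theorem class_of [Infinite E] {f : MvPolynomial (Fin (n + 2)) E} (h : HasOddSection E n f) :
    Pool.Agent.CUB.H64.InClass E n f := by
  obtain ⟨L, hL0, hL, F, _, _, hodd, a, t, ht, ha, hf⟩ := h
  refine ⟨L, hL0, hL, F, inferInstance, inferInstance, hodd, a, t, Or.inr ht, ha, ?_⟩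
  have h1 := Pool.Agent.CUB.H64.mul_DD (map ((algebraMap (FT E n) F).comp (algebraMap E (FT E n))) f) a
    (fun i => algebraMap (FT E n) F (algebraMap (MvPolynomial (Fin (n + 2)) E) _ (X i))) t
  rw [eval_map, eval_map, hf,
    vanish_span hL ((algebraMap (FT E n) F).comp (algebraMap E (FT E n))) ha, sub_zero] at h1
  exact (mul_eq_zero.1 h1).resolve_left ht

/-- **Row ODS** with the odd sections of the landed hand-in. -/
def Ods2Stmt : Prop :=
  ∀ (E : Type) [Field E] [IsAlgClosed E] (n : ℕ) (f : MvPolynomial (Fin (n + 2)) E),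
    f.IsHomogeneous 3 → Nonsing E n f → HasOddSection E n f →
    ∃ (a b : ℕ) (x : Fin (n + 2) → FT E n) (u v : Cl E n), a + b = n ∧ Sec E n a b f x u v ∧ u ≠ v

theorem ods (ani : AniStmt) (exp : ExpStmt) : Ods2Stmt := by
  intro E _ _ n f h3 hf hs
  exact ods0 ani exp E n f h3 hf (Pool.Agent.CUB.H64.class_sectW h3 (class_of hs))

end Pool.Agent.SCT.H57
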